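import Mathlib

/-!
# Temperedness at all unramified places from one place, over function fields
-/

set_option autoImplicit false

open Finset

namespace Pool.Agent.X298.RP

/-- The Satake parameters, in a fixed representation of dimension `N`, of a unitary automorphic representation over a
function field with `q` elements in the field of constants, at the places of a set `V`. `purity`: the absolute values are
`q ^ (deg v · w j)` with exponents `w j` which do not depend on `v`. `unitarity`: the parameters at `v` are stable under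
`z ↦ 1 / conj z`. -/
structure Parameters (V : Type) (N : ℕ) where
  q : ℝ
  one_lt_q : 1 < q
  deg : V → ℕ
  deg_pos : ∀ v, 1 ≤ deg v
  α : V → Fin N → ℂ
  w : Fin N → ℝ
  purity : ∀ v, ∃ e : Equiv.Perm (Fin N), ∀ j, ‖α v (e j)‖ = q ^ (deg v * w j)
  unitarity : ∀ v, ∃ e : Equiv.Perm (Fin N), ∀ j, α v (e j) = ((starRingEnd ℂ) (α v j))⁻¹

variable {V : Type} {N : ℕ}

/-- the unit part `z / |z|` -/
noncomputable def unit (z : ℂ) : ℂ := z / ‖z‖

open Classical in
/-- the number of parameters at `v` of absolute value different from `1` -/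
noncomputable def Parameters.bad (P : Parameters V N) (v : V) : ℕ := (univ.filter fun j => ‖P.α v j‖ ≠ 1).card

open Classical in
/-- the number of different unit parts of the parameters at `v` -/
noncomputable def Parameters.distinct (P : Parameters V N) (v : V) : ℕ := (univ.image fun j => unit (P.α v j)).card

/-- the product of the `(α_j conj α_k - conj α_j α_k) ^ 2` over `j < k`, a symmetric function of the parameters and their
complex conjugates -/
noncomputable def Parameters.disc (P : Parameters V N) (v : V) : ℂ :=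
  ∏ x ∈ (univ : Finset (Fin N × Fin N)).filter (fun x => x.1 < x.2),
    (P.α v x.1 * (starRingEnd ℂ) (P.α v x.2) - (starRingEnd ℂ) (P.α v x.1) * P.α v x.2) ^ 2

theorem α_ne (P : Parameters V N) (v : V) (j : Fin N) : P.α v j ≠ 0 := by
  obtain ⟨e, he⟩ := P.purity v
  have h := he (e.symm j)
  rw [Equiv.apply_symm_apply] at h
  intro h0
  rw [h0, norm_zero] at h
  exact (Real.rpow_pos_of_pos (by linarith [P.one_lt_q]) _).ne h

theorem norm_iff (P : Parameters V N) (v : V) (t : ℝ) : P.q ^ ((P.deg v : ℝ) * t) = 1 ↔ t = 0 := by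
  have h1 := P.one_lt_q
  have h2 : (0 : ℝ) < P.deg v := by exact_mod_cast P.deg_pos v
  constructor
  · intro h
    by_contra h0
    rcases lt_or_gt_of_ne h0 with h3 | h3
    · exact (Real.rpow_lt_one_of_one_lt_of_neg h1 (mul_neg_of_pos_of_neg h2 h3)).ne h
    · exact (Real.one_lt_rpow h1 (mul_pos h2 h3)).ne' h
  · rintro rfl
    rw [mul_zero, Real.rpow_zero]

open Classical in
theorem bad_eq (P : Parameters V N) (v : V) : P.bad v = (univ.filter fun j => P.w j ≠ 0).card := by
  obtain ⟨e, he⟩ := P.purity v
  unfold Parameters.bad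
  refine (Finset.card_bij (fun j _ => e j) ?_ (fun a _ b _ h => e.injective h) ?_).symm
  · intro j hj
    rw [mem_filter] at hj ⊢
    refine ⟨mem_univ _, ?_⟩
    rw [he, Ne, norm_iff]
    exact hj.2
  · intro j hj
    rw [mem_filter] at hj
    refine ⟨e.symm j, ?_, e.apply_symm_apply j⟩
    rw [mem_filter]
    refine ⟨mem_univ _, fun h0 => hj.2 ?_⟩
    have := he (e.symm j)
    rw [e.apply_symm_apply, h0, mul_zero, Real.rpow_zero] at this
    exact this

theorem unit_inv (z : ℂ) (hz : z ≠ 0) : unit (((starRingEnd ℂ) z)⁻¹) = unit z := by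
  unfold unit
  have h1 : (‖z‖ : ℂ) ≠ 0 := by exact_mod_cast norm_ne_zero_iff.2 hz
  have h2 : (starRingEnd ℂ) z ≠ 0 := by rwa [Ne, map_eq_zero]
  rw [norm_inv, RCLike.norm_conj, Complex.ofReal_inv]
  field_simp
  rw [mul_comm, Complex.mul_conj, Complex.normSq_eq_norm_sq]
  push_cast
  ring

theorem norm_inv_conj (z : ℂ) : ‖((starRingEnd ℂ) z)⁻¹‖ = ‖z‖⁻¹ := by
  rw [norm_inv, RCLike.norm_conj]

open Classical in
/-- the bound at one place -/
theorem bad_le (P : Parameters V N) (v : V) : P.bad v + 2 * P.distinct v ≤ 2 * N := by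
  obtain ⟨e, he⟩ := P.unitarity v
  set A : Finset (Fin N) := univ.filter fun j => 1 < ‖P.α v j‖ with hA
  set B : Finset (Fin N) := univ.filter fun j => ‖P.α v j‖ < 1 with hB
  have hAB : A.card = B.card := by
    refine Finset.card_bij (fun j _ => e j) ?_ (fun a _ b _ h => e.injective h) ?_
    · intro j hj
      rw [hA, mem_filter] at hj
      rw [hB, mem_filter]
      refine ⟨mem_univ _, ?_⟩
      rw [he, norm_inv_conj]
      exact inv_lt_one_of_one_lt₀ hj.2
    · intro j hj
      rw [hB, mem_filter] at hj
      refine ⟨e.symm j, ?_, e.apply_symm_apply j⟩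
      rw [hA, mem_filter]
      refine ⟨mem_univ _, ?_⟩
      have h1 := he (e.symm j)
      rw [e.apply_symm_apply] at h1
      have h2 := hj.2
      rw [h1, norm_inv_conj] at h2
      have h3 : 0 < ‖P.α v (e.symm j)‖ := norm_pos_iff.2 (α_ne P v _)
      exact (inv_lt_one₀ h3).1 h2
  have hbad : P.bad v = A.card + B.card := by
    unfold Parameters.bad
    rw [← Finset.card_union_of_disjoint]
    · congr 1
      ext j
      rw [mem_filter, mem_union, hA, hB, mem_filter, mem_filter]
      constructor
      · rintro ⟨_, h⟩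
        rcases lt_or_gt_of_ne h with h | h
        · exact Or.inr ⟨mem_univ _, h⟩
        · exact Or.inl ⟨mem_univ _, h⟩
      · rintro (⟨_, h⟩ | ⟨_, h⟩)
        · exact ⟨mem_univ _, h.ne'⟩
        · exact ⟨mem_univ _, h.ne⟩
    · rw [Finset.disjoint_left]
      intro j hj hj'
      rw [hA, mem_filter] at hj
      rw [hB, mem_filter] at hj'
      exact lt_asymm hj.2 hj'.2
  have hdist : P.distinct v ≤ (univ \ A).card := by
    unfold Parameters.distinct
    have h1 : (univ.image fun j => unit (P.α v j)) ⊆ (univ \ A).image fun j => unit (P.α v j) := by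
      intro x hx
      rw [mem_image] at hx ⊢
      obtain ⟨j, _, rfl⟩ := hx
      by_cases hj : j ∈ A
      · refine ⟨e j, ?_, ?_⟩
        · rw [mem_sdiff]
          refine ⟨mem_univ _, ?_⟩
          rw [hA, mem_filter] at hj ⊢
          rintro ⟨_, h⟩
          rw [he, norm_inv_conj] at h
          exact lt_asymm h (inv_lt_one_of_one_lt₀ hj.2)
        · rw [he, unit_inv _ (α_ne P v j)]
      · exact ⟨j, mem_sdiff.2 ⟨mem_univ _, hj⟩, rfl⟩
    exact (card_le_card h1).trans card_image_le
  have hc : (univ \ A).card + A.card = N := by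
    have := Finset.card_sdiff_add_card_eq_card (Finset.subset_univ A)
    rwa [card_univ, Fintype.card_fin] at this
  omega

theorem disc_inj (P : Parameters V N) (v : V) (h : P.disc v ≠ 0) :
    Function.Injective fun j => unit (P.α v j) := by
  have key : ∀ j k, j < k → unit (P.α v j) ≠ unit (P.α v k) := by
    intro j k hjk he
    apply h
    unfold Parameters.disc
    refine Finset.prod_eq_zero (i := (j, k)) (by simp [hjk]) ?_
    have h1 : (‖P.α v j‖ : ℂ) ≠ 0 := by exact_mod_cast norm_ne_zero_iff.2 (α_ne P v j)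
    have h2 : (‖P.α v k‖ : ℂ) ≠ 0 := by exact_mod_cast norm_ne_zero_iff.2 (α_ne P v k)
    have h3 : P.α v j = unit (P.α v j) * ‖P.α v j‖ := by
      unfold unit
      field_simp
    have h4 : P.α v k = unit (P.α v j) * ‖P.α v k‖ := by
      rw [he]
      unfold unit
      field_simp
    have h5 : P.α v j * (starRingEnd ℂ) (P.α v k) - (starRingEnd ℂ) (P.α v j) * P.α v k = 0 := by
      generalize unit (P.α v j) = u at h3 h4
      rw [h3, h4]
      simp only [map_mul, Complex.conj_ofReal]
      ring
    show _ ^ 2 = (0 : ℂ)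
    rw [h5]
    norm_num
  intro j k hjk
  rcases lt_trichotomy j k with h1 | h1 | h1
  · exact absurd hjk (key j k h1)
  · exact h1
  · exact absurd hjk.symm (key k j h1)

theorem bad_const (P : Parameters V N) (v v' : V) : P.bad v = P.bad v' := by
  rw [bad_eq P v, bad_eq P v']

theorem bad_zero (P : Parameters V N) (v : V) : P.bad v = 0 ↔ ∀ j, ‖P.α v j‖ = 1 := by
  classical
  unfold Parameters.bad
  rw [card_eq_zero, filter_eq_empty_iff]
  constructor
  · exact fun h j => not_not.1 (h (mem_univ j))
  · exact fun h j _ => not_not.2 (h j)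

theorem distinct_of_disc (P : Parameters V N) (v : V) (h : P.disc v ≠ 0) : P.distinct v = N := by
  classical
  unfold Parameters.distinct
  rw [card_image_of_injective _ (disc_inj P v h), card_univ, Fintype.card_fin]

theorem main (P : Parameters V N) :
    (∀ v v', P.bad v = P.bad v') ∧ (∀ v v', P.bad v + 2 * P.distinct v' ≤ 2 * N) ∧
    (∀ v, (∀ j, ‖P.α v j‖ = 1) → ∀ v' j, ‖P.α v' j‖ = 1) ∧
    (∀ v, P.disc v ≠ 0 → ∀ v' j, ‖P.α v' j‖ = 1) ∧
    ∀ b v v', (P.bad v = 0 ∨ b ≤ P.bad v) → 2 * N < b + 2 * P.distinct v' → ∀ v'' j, ‖P.α v'' j‖ = 1 := by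
  have h2 : ∀ v v', P.bad v + 2 * P.distinct v' ≤ 2 * N := fun v v' => by
    rw [bad_const P v v']
    exact bad_le P v'
  refine ⟨bad_const P, h2, fun v h v' => ?_, fun v h v' => ?_, fun b v v' hb hd v'' => ?_⟩
  · rw [← bad_zero, bad_const P v' v, bad_zero]
    exact h
  · rw [← bad_zero]
    have h3 := h2 v' v
    rw [distinct_of_disc P v h] at h3
    omega
  · rw [← bad_zero, bad_const P v'' v]
    have h3 := h2 v v'
    omega

end Pool.Agent.X298.RP
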